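import Pool.Agent.Helper43.HH.P3c
import Pool.Agent.Helper23.PL.Defs

/-!
# PH/Geo: the neighbourhood of the unit of two pins; cycles near two pins are long (MP_0dbcb7_co, theorem (PH))
-/

set_option autoImplicit false

open Set
open Pool.Agent.Helper83.OP Pool.Agent.Helper93.HH Pool.Agent.Helper95.HH Pool.Agent.Helper43.HH
open Pool.Agent.Helper23.PL

namespace Pool.Agent.Helper95.PH

/-! ## cycles -/

/-- two different paths with the same ends contain a cycle -/
theorem exists_cyc {V : Type} {G : SimpleGraph V} {u v : V} (p q : G.Walk u v)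
    (hp : p.IsPath) (hq : q.IsPath) (hne : p ≠ q) :
    ∃ (w : V) (Z : G.Walk w w), Z.IsCycle ∧ Z.length ≤ p.length + q.length ∧
      (w ∈ p.support ∨ w ∈ q.support) := by
  classical
  let H : SimpleGraph V := SimpleGraph.fromEdgeSet {e | e ∈ p.edges ∨ e ∈ q.edges}
  have hH : ∀ e, e ∈ H.edgeSet → e ∈ p.edges ∨ e ∈ q.edges := by
    intro e he
    rw [SimpleGraph.edgeSet_fromEdgeSet] at he
    exact he.1
  have hHp : ∀ e ∈ p.edges, e ∈ H.edgeSet := by
    intro e he
    rw [SimpleGraph.edgeSet_fromEdgeSet]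
    exact ⟨Or.inl he, SimpleGraph.not_isDiag_of_mem_edgeSet _ (p.edges_subset_edgeSet he)⟩
  have hHq : ∀ e ∈ q.edges, e ∈ H.edgeSet := by
    intro e he
    rw [SimpleGraph.edgeSet_fromEdgeSet]
    exact ⟨Or.inr he, SimpleGraph.not_isDiag_of_mem_edgeSet _ (q.edges_subset_edgeSet he)⟩
  have hcyc : ¬ H.IsAcyclic := by
    intro hac
    have h1 := (hac.subsingleton_path u v).elim ⟨p.transfer H hHp, hp.transfer hHp⟩
      ⟨q.transfer H hHq, hq.transfer hHq⟩
    have h2 : p.transfer H hHp = q.transfer H hHq := congrArg Subtype.val h1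
    refine hne (SimpleGraph.Walk.ext_support ?_)
    rw [← SimpleGraph.Walk.support_transfer p hHp, ← SimpleGraph.Walk.support_transfer q hHq, h2]
  unfold SimpleGraph.IsAcyclic at hcyc
  push Not at hcyc
  obtain ⟨w, c, hc⟩ := hcyc
  have hcG : ∀ e ∈ c.edges, e ∈ G.edgeSet := by
    intro e he
    rcases hH e (c.edges_subset_edgeSet he) with h | h
    · exact p.edges_subset_edgeSet h
    · exact q.edges_subset_edgeSet h
  refine ⟨w, c.transfer G hcG, hc.transfer hcG, ?_, ?_⟩
  · rw [SimpleGraph.Walk.length_transfer, ← SimpleGraph.Walk.length_edges,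
      ← SimpleGraph.Walk.length_edges, ← SimpleGraph.Walk.length_edges, ← List.length_append]
    refine (List.subperm_of_subset hc.isCircuit.isTrail.edges_nodup ?_).length_le
    intro e he
    rw [List.mem_append]
    exact hH e (c.edges_subset_edgeSet he)
  · have h1 : w ∈ c.support := c.start_mem_support
    rw [SimpleGraph.Walk.mem_support_iff_exists_mem_edges_of_not_nil hc.not_nil] at h1
    obtain ⟨e, he, hwe⟩ := h1
    rcases hH e (c.edges_subset_edgeSet he) with h | h
    · exact Or.inl (SimpleGraph.Walk.mem_support_of_mem_edges h hwe)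
    · exact Or.inr (SimpleGraph.Walk.mem_support_of_mem_edges h hwe)

/-- two vertices of a cycle which are far along the cycle but near to `f` -/
theorem short_cyc {V : Type} {N : SimpleGraph V} {y f : V} (C : N.Walk y y)
    (hC : C.IsCycle) {i j ρ : ℕ} (hij : i + 2 * ρ < j) (hj : j < C.length)
    (h1 : Nr N ρ (C.getVert i) f) (h2 : Nr N ρ (C.getVert j) f) :
    ∃ (w : V) (Z : N.Walk w w), Z.IsCycle ∧ Z.length ≤ j + 2 * ρ ∧ Nr N (j + 2 * ρ) y w := by
  classical
  have h3 : (C.take j).getVert i = C.getVert i := by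
    rw [SimpleGraph.Walk.take_getVert, min_eq_right (by omega)]
  have hpj : (C.take j).IsPath := hC.isPath_take hj
  have hlj : (C.take j).length = j := by
    rw [SimpleGraph.Walk.take_length, min_eq_left hj.le]
  obtain ⟨q0, hq0⟩ := h1.trans h2.symm
  let p : N.Walk (C.getVert i) (C.getVert j) := ((C.take j).drop i).copy h3 rfl
  have hp : p.IsPath := by
    rw [SimpleGraph.Walk.isPath_copy]
    exact hpj.drop i
  have hlp : p.length = j - i := by
    rw [SimpleGraph.Walk.length_copy, SimpleGraph.Walk.drop_length, hlj]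
  have hlq : q0.bypass.length ≤ 2 * ρ := by
    have := q0.length_bypass_le_length
    omega
  obtain ⟨w, Z, hZ, hZl, hw⟩ := exists_cyc p q0.bypass hp q0.bypass_isPath (by
    intro h
    rw [h] at hlp
    omega)
  refine ⟨w, Z, hZ, by omega, ?_⟩
  rcases hw with hw | hw
  · have h4 : w ∈ (C.take j).support := by
      rw [SimpleGraph.Walk.support_copy, SimpleGraph.Walk.drop_support_eq_support_drop_min] at hw
      exact List.mem_of_mem_drop hw
    have h5 := Nr.of_mem h4
    exact h5.mono (by omega)
  · have h4 : Nr N (2 * ρ) (C.getVert i) w := (Nr.of_mem hw).mono hlq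
    have h5 : Nr N i y (C.getVert i) := ⟨C.take i, by
      rw [SimpleGraph.Walk.take_length]
      exact min_le_left _ _⟩
    exact (h5.trans h4).mono (by omega)

section

variable {V P Q : Type} [Finite V] {D : HD V P Q}

theorem bv_mono {S T : Set V} (h : S ⊆ T) : bv D S ≤ bv D T :=
  Set.ncard_le_ncard (Set.inter_subset_inter_left _ h) (Set.toFinite _)

/-- cycles near two pins are long -/
theorem cyc_far {k2 : ℕ} (hc0 : ∀ v (Z : D.N.Walk v v), Z.IsCycle → 128 < Z.length)
    (hc1 : ∀ v (Z : D.N.Walk v v), Z.IsCycle → ∀ y ∈ Z.support, ∀ s,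
      bv D (D.ball s y) ≤ k2 → (∀ q, ¬ Pn D s y q) → 128 * s < Z.length)
    {p q : P} {ρ : ℕ} (hbv : bv D (D.ball ρ (D.x p)) ≤ k2)
    (hpin : ∀ s, Pn D ρ (D.x p) s → s = p ∨ s = q) :
    ∀ (n : ℕ) v (Z : D.N.Walk v v), Z.IsCycle → Z.length = n → ∀ w ∈ Z.support, ∀ D0,
      Nr D.N D0 (D.x p) w → ρ < D0 + Z.length := by
  classical
  intro n
  induction n using Nat.strong_induction_on with
  | _ n ih =>
  intro v Z hZ hn w hw D0 hD0
  by_contra hcon
  rw [not_lt] at hcon
  have hl := hc0 v Z hZ
  obtain ⟨s, hs⟩ : ∃ s, s = Z.length / 64 := ⟨_, rfl⟩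
  have hs1 : 64 * s ≤ Z.length := by
    rw [hs]
    exact Nat.mul_div_le _ _
  have hs2 : Z.length < 64 * s + 64 := by
    have := Nat.lt_mul_div_succ Z.length (show 0 < 64 by norm_num)
    rw [← hs] at this
    omega
  obtain ⟨C, hCdef⟩ : ∃ C, C = Z.rotate w hw := ⟨_, rfl⟩
  have hC : C.IsCycle := by
    rw [hCdef]
    exact hZ.rotate hw
  have hCl : C.length = Z.length := by
    rw [hCdef]
    exact SimpleGraph.Walk.length_rotate ..
  have hNr : ∀ i, Nr D.N i w (C.getVert i) := fun i => ⟨C.take i, by
    rw [SimpleGraph.Walk.take_length]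
    exact min_le_left _ _⟩
  have hnear : ∀ i ≤ 4 * s + 2, Nr D.N s (C.getVert i) (D.x p) ∨ Nr D.N s (C.getVert i) (D.x q) := by
    intro i hi
    by_contra hno
    rw [not_or] at hno
    have hmem : C.getVert i ∈ Z.support := by
      rw [← SimpleGraph.Walk.mem_support_rotate_iff Z w hw, ← hCdef]
      exact C.getVert_mem_support i
    have h1 := hc1 v Z hZ _ hmem s ((bv_mono (fun z hz =>
      ((hD0.trans (hNr i)).trans hz).mono (by omega))).trans hbv) (by
        rintro s' ⟨m, hm, hm2⟩
        rcases hpin s' ⟨D0 + i + m, (hD0.trans (hNr i)).trans hm, by omega⟩ with h | h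
        · subst h
          exact hno.1 (hm.mono (by omega))
        · subst h
          exact hno.2 (hm.mono (by omega)))
    omega
  have hsame : ∀ i j, i + 2 * s < j → j ≤ 4 * s + 2 → ∀ f, Nr D.N s (C.getVert i) f →
      ¬ Nr D.N s (C.getVert j) f := by
    intro i j hij hj f h1 h2
    obtain ⟨w', Z', hZ', hl', hw'⟩ := short_cyc C hC hij (by omega) h1 h2
    have h4 := ih Z'.length (by omega) w' Z' hZ' rfl w' Z'.start_mem_support _ (hD0.trans hw')
    omega
  rcases hnear 0 (by omega) with h0 | h0
  · rcases hnear (2 * s + 1) (by omega) with h1 | h1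
    · exact hsame _ _ (by omega) (by omega) _ h0 h1
    · rcases hnear (4 * s + 2) le_rfl with h2 | h2
      · exact hsame _ _ (by omega) (by omega) _ h0 h2
      · exact hsame _ _ (by omega) (by omega) _ h1 h2
  · rcases hnear (2 * s + 1) (by omega) with h1 | h1
    · rcases hnear (4 * s + 2) le_rfl with h2 | h2
      · exact hsame _ _ (by omega) (by omega) _ h1 h2
      · exact hsame _ _ (by omega) (by omega) _ h0 h2
    · exact hsame _ _ (by omega) (by omega) _ h0 h1

/-! ## the neighbourhood of the unit -/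

/-- the neighbours of an inner vertex of a pin -/
theorem pin_step (hD : D.Ok) (hG : GOk D) {s : P} {j : ℕ} (hj : 1 ≤ j) (hj2 : j < (D.w s).length)
    {z' : V} (h : D.G.Adj ((D.w s).getVert j) z') :
    z' = (D.w s).getVert (j - 1) ∨ z' = (D.w s).getVert (j + 1) := by
  obtain ⟨m, rfl⟩ := Nat.exists_eq_succ_of_ne_zero (show j ≠ 0 by omega)
  have hz : (D.w s).getVert (m + 1) ∈ (D.w s).support := SimpleGraph.Walk.getVert_mem_support _ _
  have hx : (D.w s).getVert (m + 1) ≠ D.x s := by
    intro h2
    have h3 := w_getVert_VN hD s (i := m + 1) (by omega) (by rw [h2]; exact HD.x_VN _)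
    omega
  have hd := hG.w_deg s _ hz hx (w_getVert_ne_hub hD s hj2)
  have h1 : D.G.Adj ((D.w s).getVert m) ((D.w s).getVert (m + 1)) :=
    (D.w s).adj_getVert_succ (by omega)
  have h2 : D.G.Adj ((D.w s).getVert (m + 1)) ((D.w s).getVert (m + 2)) :=
    (D.w s).adj_getVert_succ hj2
  have hne : (D.w s).getVert m ≠ (D.w s).getVert (m + 2) := by
    intro h3
    have := (hD.w_path s).getVert_injOn (by simp; omega : m ∈ {i | i ≤ (D.w s).length})
      (by simp; omega : m + 2 ∈ {i | i ≤ (D.w s).length}) h3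
    omega
  have hsub : ({(D.w s).getVert m, (D.w s).getVert (m + 2)} : Set V) ⊆
      D.G.neighborSet ((D.w s).getVert (m + 1)) := by
    rintro x (rfl | rfl)
    · exact h1.symm
    · exact h2
  have heq : ({(D.w s).getVert m, (D.w s).getVert (m + 2)} : Set V) =
      D.G.neighborSet ((D.w s).getVert (m + 1)) := by
    refine Set.eq_of_subset_of_ncard_le hsub ?_ (Set.toFinite _)
    rw [Set.ncard_pair hne]
    exact hd.le
  have h4 : z' ∈ ({(D.w s).getVert m, (D.w s).getVert (m + 2)} : Set V) := by
    rw [heq]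
    exact h
  rcases h4 with rfl | rfl
  · exact Or.inl rfl
  · exact Or.inr rfl

/-- the first edge of a path is its only edge at the first vertex -/
theorem snd_of_path {H : SimpleGraph V} {a b z : V} (p : H.Walk a b)
    (hp : p.IsPath) (h : s(a, z) ∈ p.edges) : p.getVert 1 = z := by
  cases p with
  | nil => simp at h
  | @cons _ w _ hw q =>
    rw [SimpleGraph.Walk.edges_cons, List.mem_cons] at h
    rcases h with h | h
    · rw [SimpleGraph.Walk.getVert_cons_succ, SimpleGraph.Walk.getVert_zero]
      rcases Sym2.eq_iff.1 h with ⟨-, h2⟩ | ⟨h1, h2⟩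
      · exact h2.symm
      · rw [h2, ← h1]
    · exact absurd (SimpleGraph.Walk.fst_mem_support_of_mem_edges _ h)
        ((SimpleGraph.Walk.cons_isPath_iff hw q).1 hp).2

/-- `z` is on the first part of another pin -/
def Oth (D : HD V P Q) (p q : P) (m : ℕ) (z : V) : Prop :=
  ∃ s j d, s ≠ p ∧ s ≠ q ∧ z = (D.w s).getVert j ∧ 1 ≤ j ∧ j ≤ (D.w s).length ∧
    Nr D.N d (D.x p) (D.x s) ∧ d + j ≤ m

variable {p q : P} {π : D.N.Walk (D.x p) (D.x q)}

/-- the description of the neighbourhood of the core -/
theorem near_pc (hD : D.Ok) (hG : GOk D) {e : Sym2 V} {i : ℕ} (hi : i ≤ pl3 D p q π)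
    {n : ℕ} {z : V} (h : Nr (outG D.G D.U e) n (pg D p q π i) z) :
    z ∉ D.U ∧ ((z ∈ (D.w p).support) ∨ (z ∈ (D.w q).support) ∨
      (z ∈ D.VN ∧ Nr D.N (π.length + n) (D.x p) z) ∨ Oth D p q (π.length + n) z) := by
  obtain ⟨W, hW⟩ := h
  -- induction over the walk
  have key : ∀ k, k ≤ W.length → W.getVert k ∉ D.U ∧ ((W.getVert k ∈ (D.w p).support) ∨
      (W.getVert k ∈ (D.w q).support) ∨
      (W.getVert k ∈ D.VN ∧ Nr D.N (π.length + k) (D.x p) (W.getVert k)) ∨
      Oth D p q (π.length + k) (W.getVert k)) := by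
    intro k
    induction k with
    | zero =>
      intro _
      rw [SimpleGraph.Walk.getVert_zero]
      refine ⟨pg_notU hD hi, ?_⟩
      rcases pg_cases hD hi with h | h | h
      · exact Or.inl h
      · exact Or.inr (Or.inl h)
      · exact Or.inr (Or.inr (Or.inl h))
    | succ k ih =>
      intro hk
      obtain ⟨hU, hc⟩ := ih (by omega)
      have hadj : (outG D.G D.U e).Adj (W.getVert k) (W.getVert (k + 1)) :=
        W.adj_getVert_succ (by omega)
      have hU' : W.getVert (k + 1) ∉ D.U := hadj.2.2.2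
      refine ⟨hU', ?_⟩
      -- a vertex of `N`
      have hVN : W.getVert k ∈ D.VN → Nr D.N (π.length + k) (D.x p) (W.getVert k) →
          (W.getVert (k + 1) ∈ (D.w p).support) ∨ (W.getVert (k + 1) ∈ (D.w q).support) ∨
          (W.getVert (k + 1) ∈ D.VN ∧
            Nr D.N (π.length + (k + 1)) (D.x p) (W.getVert (k + 1))) ∨
          Oth D p q (π.length + (k + 1)) (W.getVert (k + 1)) := by
        intro h1 h2
        rcases hG.cover _ _ hadj.1 with h3 | ⟨s, h3⟩ | ⟨s, h3⟩
        · right; right; left
          exact ⟨HD.VN_of_adj' h3, (h2.trans (Nr.of_adj h3)).mono (by omega)⟩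
        · have h4 := SimpleGraph.Walk.fst_mem_support_of_mem_edges _ h3
          have h5 := SimpleGraph.Walk.snd_mem_support_of_mem_edges _ h3
          have h6 : W.getVert k = D.x s := by
            by_contra hne
            exact hD.w_N s _ h4 hne h1
          rw [h6] at h2
          by_cases hsp : s = p
          · subst hsp
            exact Or.inl h5
          by_cases hsq : s = q
          · subst hsq
            exact Or.inr (Or.inl h5)
          right; right; right
          rw [h6] at h3
          have h7 := snd_of_path (D.w s) (hD.w_path s) h3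
          have h8 := hD.w_ge s
          have h9 := hD.r_pos
          exact ⟨s, 1, π.length + k, hsp, hsq, h7.symm, le_rfl, by omega, h2, by omega⟩
        · exact absurd h1 (hD.wq_N s _ (SimpleGraph.Walk.fst_mem_support_of_mem_edges _ h3))
      rcases hc with h1 | h1 | ⟨h1, h2⟩ | ⟨s, j, d, a1, a2, a3, a4, a5, a6, a7⟩
      · by_cases hx : W.getVert k = D.x p
        · refine hVN ?_ ?_
          · rw [hx]
            exact HD.x_VN _
          · rw [hx]
            exact Nr.refl _ _ _
        · left
          have h3 := pin_nbr hD hG h1 hx (fun h => hU (h ▸ hD.hub_U _)) hadj.1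
          exact SimpleGraph.Walk.snd_mem_support_of_mem_edges _ h3
      · by_cases hx : W.getVert k = D.x q
        · refine hVN ?_ ?_
          · rw [hx]
            exact HD.x_VN _
          · rw [hx]
            exact (Nr.of_walk π).mono (by omega)
        · right; left
          have h3 := pin_nbr hD hG h1 hx (fun h => hU (h ▸ hD.hub_U _)) hadj.1
          exact SimpleGraph.Walk.snd_mem_support_of_mem_edges _ h3
      · exact hVN h1 h2
      · have hj : j < (D.w s).length := by
          by_contra hno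
          have hj2 : j = (D.w s).length := by omega
          apply hU
          rw [a3, hj2, SimpleGraph.Walk.getVert_length]
          exact hD.hub_U s
        have hadj2 := hadj.1
        rw [a3] at hadj2
        rcases pin_step hD hG a4 hj hadj2 with h3 | h3
        · by_cases hj1 : j = 1
          · right; right; left
            have h4 : W.getVert (k + 1) = D.x s := by
              rw [h3, hj1, Nat.sub_self, SimpleGraph.Walk.getVert_zero]
            rw [h4]
            exact ⟨HD.x_VN _, a6.mono (by omega)⟩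
          · right; right; right
            exact ⟨s, j - 1, d, a1, a2, h3, by omega, by omega, a6, by omega⟩
        · right; right; right
          exact ⟨s, j + 1, d, a1, a2, h3, by omega, by omega, a6, by omega⟩
  obtain ⟨h1, h2⟩ := key W.length le_rfl
  rw [SimpleGraph.Walk.getVert_length] at h1 h2
  refine ⟨h1, ?_⟩
  rcases h2 with h2 | h2 | ⟨h2, h3⟩ | ⟨s, j, d, a1, a2, a3, a4, a5, a6, a7⟩
  · exact Or.inl h2
  · exact Or.inr (Or.inl h2)
  · exact Or.inr (Or.inr (Or.inl ⟨h2, h3.mono (by omega)⟩))
  · exact Or.inr (Or.inr (Or.inr ⟨s, j, d, a1, a2, a3, a4, a5, a6, by omega⟩))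

/-- the volume of a ball with few branch vertices -/
theorem vol_le (hD : D.Ok) {S : Set V} (hS : ∀ v ∈ S, v ∉ D.U) :
    D.vol S ≤ bv D S * (D.Kh * D.r) := by
  classical
  unfold HD.vol bv
  have h1 : ∑ v ∈ (Set.toFinite S).toFinset, (D.dg v - 2) =
      ∑ v ∈ (Set.toFinite S).toFinset.filter (fun v => v ∈ Vb D), (D.dg v - 2) := by
    rw [Finset.sum_filter_of_ne]
    intro v _ hv
    show 3 ≤ D.dg v
    omega
  rw [h1]
  have h2 : ∑ v ∈ (Set.toFinite S).toFinset.filter (fun v => v ∈ Vb D), (D.dg v - 2) ≤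
      ((Set.toFinite S).toFinset.filter (fun v => v ∈ Vb D)).card * (D.Kh * D.r) := by
    refine Finset.sum_le_card_nsmul _ _ _ ?_
    intro v hv
    rw [Finset.mem_filter, Set.Finite.mem_toFinset] at hv
    have h3 := hD.dg_le v (hS v hv.1)
    omega
  refine h2.trans (Nat.mul_le_mul_right _ (le_of_eq ?_))
  rw [← Set.ncard_coe_finset]
  congr 1
  ext v
  simp

end

end Pool.Agent.Helper95.PH
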