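import Pool.Agent.Helper95.PH.Tr
import Pool.Agent.Helper95.PH.Geo
import Pool.Agent.Helper83.PH.PSlide
import Pool.Agent.Helper83.PH.NoCyc
import Pool.Agent.Helper66.PL.P3

/-!
# PH/P3: a ball with two pins and a short walk between their hubs (MP_0dbcb7_co, theorem (PH))

Pins `p`, `q` with different hubs, no other pin ends within `ρ` of `x p`, small volume. The unit (`p`, a path `π` of `N`
from `x p` to `x q`, `q`) moves to the walk `W` between the two hubs: the core contracts to `x p`, moves to the point `v` of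
`W` and expands along `W`.
-/

set_option autoImplicit false

open Set
open Pool.Agent.Helper83.OP Pool.Agent.Helper83.HR Pool.Agent.Helper93.HH Pool.Agent.Helper95.HH
open Pool.Agent.Helper43.HH Pool.Agent.Helper23.PL
open Pool.Agent.Helper66.PL (exists_R out_of_hub ring_G)
open Pool.Agent.Helper83.PH

namespace Pool.Agent.Helper95.PH

/-- **(PH) p3** -/
theorem draw_p3 (C k : ℕ) : ∃ K : ℕ, ∀ (V P Q : Type) [Finite V] (D : HD V P Q) (R n0 : ℕ),
    Hyp D C R n0 → 16 ≤ k → FE1 D k n0 → ¬ KPl K D.G → FP3 D k n0 := by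
  classical
  obtain ⟨kk, hkk⟩ := Pool.Agent.Helper83.PH.place_slide (3 * C) (32 * (4 * k + 4))
  refine ⟨kk, ?_⟩
  intro V P Q _ D R n0 hyp hk hE hno p q ρ t hqh ht h64 hbv hpin y0 z0 W0 hy0 hz0 hW0 hcw v0 hv0 hr0
  apply hno
  have hD := hyp.ok
  have hG := hyp.gok
  have hR := hyp.two
  have hKh := hyp.deg
  have hvolR := hyp.vol
  have hlow := hyp.low
  have hcrit := hyp.crit
  have hr := hD.r_pos
  -- the walks
  obtain ⟨π, hπ, hπt⟩ : ∃ π : D.N.Walk (D.x p) (D.x q), π.IsPath ∧ π.length ≤ t := by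
    obtain ⟨W, hW⟩ := ht
    exact ⟨W.bypass, W.bypass_isPath, W.length_bypass_le_length.trans hW⟩
  have lp1 := hD.w_ge p
  have lq1 := hD.w_ge q
  have hcwπ := hcw _ (Nr.of_walk π)
  have hqp : q ≠ p := by
    rintro rfl
    exact hqh rfl
  set n := pl3 D p q π with hn
  have hnd : n = (D.w p).length - 1 + π.length + ((D.w q).length - 1) := rfl
  have hn1 : 2 ≤ n := by omega
  have hnρ : 64 * (n + 2) ≤ ρ := by omega
  set u := (D.w p).penultimate with hu
  set a := D.hub p with ha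
  have haU : a ∈ D.U := hD.hub_U p
  have hbU : D.hub q ∈ D.U := hD.hub_U q
  set G0 := outG D.G D.U s(u, a) with hG0
  have hadj : D.G.Adj u a := pen_adj hD p
  have huU : u ∉ D.U := pen_notU hD p
  -- the vertex `v` of `W`
  have hy0U : y0 ∉ D.U := fun h => hub_nadj D hD hG _ (hD.hub_U p) y0 h hy0.1
  obtain ⟨v, hv, hvU, X, hX, hXt⟩ := out_of_hub hD hG W0 hW0 hy0U hv0 hr0
  -- the edge
  have he : s(u, a) ∈ (D.w p).edges := by
    have h1 := gv_edge (D.w p) (n := (D.w p).length - 1) (by omega)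
    rw [show (D.w p).length - 1 + 1 = (D.w p).length by omega,
      SimpleGraph.Walk.getVert_length] at h1
    exact h1
  -- the core
  obtain ⟨Γ, Γ1, Γ2, Γ3, Γ4⟩ := walk_fun (G := G0) (pg D p q π) n
    (fun i hi => pg_adj hD haU hi)
  have hΓp : Γ.IsPath := Γ4 fun i j hij hj => pg_inj hD (Ne.symm hqp) hπ hij hj
  have hΓmem : ∀ i ≤ n, pg D p q π i ∈ Γ.support := by
    intro i hi
    rw [← Γ2 i hi]
    exact SimpleGraph.Walk.getVert_mem_support _ _
  obtain ⟨J, hJ⟩ : ∃ J, J = ρ / 16 := ⟨_, rfl⟩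
  have hJ1 : 1 ≤ J := by omega
  have hJ2 : 16 * J ≤ ρ := by omega
  have hJρ : ρ ≤ 32 * J := by omega
  have hπρ : 64 * π.length ≤ ρ := by omega
  -- the neighbourhood
  have hB : ∀ z, (∃ y ∈ Γ.support, Nr G0 J y z) → z ∉ D.U ∧ ((z ∈ (D.w p).support) ∨
      (z ∈ (D.w q).support) ∨ (z ∈ D.VN ∧ Nr D.N (π.length + J) (D.x p) z) ∨
      Oth D p q (π.length + J) z) := by
    rintro z ⟨y, hy, h⟩
    obtain ⟨i, hi, rfl⟩ := Γ3 y hy
    exact near_pc hD hG hi h
  have hBVN : ∀ z, (∃ y ∈ Γ.support, Nr G0 J y z) → z ∈ D.VN →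
      Nr D.N (π.length + J) (D.x p) z := by
    intro z hz hVN
    rcases (hB z hz).2 with h | h | h | ⟨s, j, d, a1, a2, a3, a4, a5, a6, a7⟩
    · exact near_VN (π := π) hD hVN (Or.inl h)
    · exact near_VN (π := π) hD hVN (Or.inr (Or.inl h))
    · exact h.2
    · rw [a3] at hVN
      have := w_getVert_VN hD s a5 hVN
      omega
  -- long cycles
  have hcycB : ∀ z (Z : G0.Walk z z), Z.IsCycle → (∃ y ∈ Γ.support, Nr G0 J y z) →
      2 * J + 1 + Γ.length < Z.length := by
    intro z Z hZ hz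
    obtain ⟨Z', hZ', hlen, hsup⟩ := out_cycle hD hG Z hZ
    have hzVN : z ∈ D.VN := by
      obtain ⟨w, hw⟩ : ∃ w, D.N.Adj z w := by
        cases Z' with
        | nil => exact absurd hZ' SimpleGraph.Walk.not_isCycle_nil
        | cons h _ => exact ⟨_, h⟩
      exact HD.VN_of_adj hw
    have h1 := long_cyc hD hE hk hbv hpin Z' hZ' Z'.start_mem_support (hBVN z hz hzVN)
    rw [hlen] at h1
    rw [Γ1]
    omega
  obtain ⟨tt, par, core, c1, c2, c3, c4, c5, c6, c7⟩ := core_forest G0 J Γ hΓp hcycB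
  set B : Set V := {z | ∃ y ∈ Γ.support, Nr G0 J y z} with hBdef
  have hΓB : ∀ z ∈ Γ.support, z ∈ B := fun z hz => ⟨z, hz, Nr.refl _ _ _⟩
  have hpg0 : pg D p q π 0 = u := pg_zero
  have hpgn : pg D p q π n = (D.w q).penultimate := pg_end hD
  have huΓ : u ∈ Γ.support := by
    rw [← hpg0]
    exact hΓmem 0 (Nat.zero_le _)
  -- isolation
  have hiso : ∀ z ∈ B, ∀ b ∈ D.U, D.G.Adj z b →
      (b = a ∧ z = u) ∨ (b = D.hub q ∧ z = (D.w q).penultimate) := by
    intro z hz b hb hzb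
    obtain ⟨hzU, h⟩ := hB z hz
    by_cases hVN : z ∈ D.VN
    · exact absurd hzb (VN_nadj hD hG hVN hb)
    rcases h with h | h | h | ⟨s, j, d, a1, a2, a3, a4, a5, a6, a7⟩
    · left
      exact pin_iso hD hG h (fun h' => hVN (h' ▸ HD.x_VN _)) (fun h' => hzU (h' ▸ hD.hub_U _))
        hzb hb
    · right
      exact pin_iso hD hG h (fun h' => hVN (h' ▸ HD.x_VN _)) (fun h' => hzU (h' ▸ hD.hub_U _))
        hzb hb
    · exact absurd h.1 hVN
    · exfalso
      have h1 : z ∈ (D.w s).support := by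
        rw [a3]
        exact SimpleGraph.Walk.getVert_mem_support _ _
      obtain ⟨h2, h3⟩ := pin_iso hD hG h1 (fun h' => hVN (h' ▸ HD.x_VN _))
        (fun h' => hzU (h' ▸ hD.hub_U _)) hzb hb
      rw [a3] at h3
      have h4 : j = (D.w s).length - 1 :=
        (hD.w_path s).getVert_injOn (by simp; omega : j ∈ {i | i ≤ (D.w s).length})
          (by simp : (D.w s).length - 1 ∈ {i | i ≤ (D.w s).length}) h3
      rcases hpin s ⟨d, a6, by omega⟩ with h5 | h5
      · exact a1 h5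
      · exact a2 h5
  -- indices
  have hidx : ∀ z, ∃ i, z ∈ Γ.support → i ≤ n ∧ pg D p q π i = z := by
    intro z
    by_cases hz : z ∈ Γ.support
    · obtain ⟨i, hi, h⟩ := Γ3 z hz
      exact ⟨i, fun _ => ⟨hi, h⟩⟩
    · exact ⟨0, fun h => absurd h hz⟩
  choose idx hidx using hidx
  have hidx_eq : ∀ i ≤ n, idx (pg D p q π i) = i := by
    intro i hi
    obtain ⟨h1, h2⟩ := hidx _ (hΓmem i hi)
    by_contra hne
    rcases lt_or_gt_of_ne hne with h | h
    · exact pg_inj hD (Ne.symm hqp) hπ h hi h2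
    · exact pg_inj hD (Ne.symm hqp) hπ h h1 h2.symm
  have hkn : cw D W0 + 2 ≤ (2 * k + 1) * n := by
    have h1 : (D.w p).length + π.length + (D.w q).length = n + 2 := by omega
    rw [h1] at hcwπ
    have h2 : k * (n + 2) ≤ k * (2 * n) := Nat.mul_le_mul_left _ (by omega)
    have h3 : (2 * k + 1) * n = k * (2 * n) + n := by ring
    omega
  set M := n + (k * ρ + 1) + (2 * k + 1) * n with hM
  refine hkk V P Q D hD hG R hR ?_ hlow hcrit u a hadj huU B tt par core J M u ?_ ?_ ?_ ?_ hJ1 ?_ ?_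
    ?_ ?_ ?_ ?_ ?_ ?_ ?_ ?_ ?_
  · calc D.Kh * D.r ≤ C * R := hKh
      _ ≤ 3 * C * R := Nat.mul_le_mul_right _ (by omega)
  · -- connected
    rintro w ⟨y, hy, W, hW⟩
    have h1 : ∃ p1 : G0.Walk u y, ∀ z ∈ p1.support, z ∈ B := by
      refine ⟨(Γ.takeUntil y hy).copy hpg0 rfl, ?_⟩
      intro z hz
      rw [SimpleGraph.Walk.support_copy] at hz
      exact hΓB z (SimpleGraph.Walk.support_takeUntil_subset_support _ _ hz)
    obtain ⟨p1, hp1⟩ := h1
    refine ⟨(p1.append W).mapLe (outG_le _), ?_⟩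
    intro z hz
    rw [SimpleGraph.Walk.support_mapLe_eq_support, SimpleGraph.Walk.mem_support_append_iff] at hz
    rcases hz with hz | hz
    · exact hp1 z hz
    · exact ⟨y, hy, (Nr.of_mem hz).mono hW⟩
  · intro z hz
    exact (hB z hz).1
  · intro z hz s hs
    obtain ⟨hzU, h | h | h | ⟨s', j, d, a1, a2, a3, a4, a5, a6, a7⟩⟩ := hB z hz
    · exact hzU ((hD.wq_w s p z hs h) ▸ hD.hub_U p)
    · exact hzU ((hD.wq_w s q z hs h) ▸ hD.hub_U q)
    · exact hD.wq_N s z hs h.1
    · refine hzU ((hD.wq_w s s' z hs ?_) ▸ hD.hub_U s')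
      rw [a3]
      exact SimpleGraph.Walk.getVert_mem_support _ _
  · -- volume
    have h1 := vol_cmp D hD hG B (D.ball ρ (D.x p)) (fun z hz => (hB z hz).1)
      (fun z hz hVN => (hBVN z hz hVN).mono (by omega))
    have h4 : 3 * C * R = 3 * (C * R) := by ring
    omega
  · -- M
    have h1 : (2 * k + 1) * n ≤ (2 * k + 1) * ρ := Nat.mul_le_mul_left _ (by omega)
    have h2 : M ≤ (3 * k + 3) * ρ := by
      have h3 : (3 * k + 3) * ρ = k * ρ + (2 * k + 1) * ρ + 2 * ρ := by ring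
      omega
    calc M ≤ (3 * k + 3) * ρ := h2
      _ ≤ (3 * k + 3) * (32 * J) := Nat.mul_le_mul_left _ hJρ
      _ = 32 * (3 * k + 3) * J := by ring
      _ ≤ 32 * (4 * k + 4) * J := Nat.mul_le_mul_right _ (by omega)
  · exact fun z hz => c1 z hz
  · intro z hz hne
    obtain ⟨h1, h2, h3, h4⟩ := c2 z hz hne
    exact ⟨h1, h2, h3, h4⟩
  · exact fun z hz => c3 z hz
  · exact fun z hz z' hz' h => c5 z z' hz hz' h
  · exact fun z hz z' hz' h => c6 z z' hz hz' h
  · exact hΓB u huΓ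
  · exact (c4 u (hΓB u huΓ)).2 huΓ
  · intro h
    exact (hB a h).1 haU
  · -- joined to a hub: on the core
    intro z hz b hb hzb hne
    refine (c4 z hz).2 ?_
    rcases hiso z hz b hb hzb with ⟨h1, h2⟩ | ⟨h1, h2⟩
    · rw [h2]
      exact huΓ
    · rw [h2, ← hpgn]
      exact hΓmem n le_rfl
  · -- the tracks
    intro ord hord
    set H := D.G.deleteEdges {s(u, a)} with hH
    set RG := ringOut H D.U ord with hRG
    have hHadj : ∀ x y, D.G.Adj x y → s(x, y) ≠ s(u, a) → H.Adj x y := by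
      intro x y h1 h2
      rw [hH, SimpleGraph.deleteEdges_adj]
      exact ⟨h1, fun h3 => h2 h3⟩
    have hRadj : ∀ x y, D.G.Adj x y → x ∉ D.U → y ∉ D.U →
        RG.Adj (Sum.inl x) (Sum.inl y) := by
      intro x y h1 h2 h3
      refine ringOut_old (hHadj x y h1 ?_) h2 h3
      intro h4
      rw [Sym2.eq_iff] at h4
      rcases h4 with ⟨-, h4⟩ | ⟨h4, -⟩
      · exact h3 (h4 ▸ haU)
      · exact h2 (h4 ▸ haU)
    obtain ⟨da, db, Rw, hda, hdb, hRl, hRv⟩ := exists_R hD hG he hord hbU hy0 hz0 W0 hW0 hv hvU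
    obtain ⟨Xw, hXw⟩ := ring_G hD hG he hord (hD.x_U p) hvU X hX hXt
    obtain ⟨j0, hj0, hj0l⟩ := SimpleGraph.Walk.mem_support_iff_exists_getVert.1 hRv
    obtain ⟨f, f0, fn, fle, fs⟩ := aff n Rw.length (2 * k + 1) (by omega) (by omega)
    obtain ⟨tr, htr⟩ := tracks3 RG n Rw.length Xw.length (2 * k + 2) ((D.w p).length - 1) j0
      (fun i => Sum.inl (pg D p q π i)) (fun i => Xw.getVert i) (fun i => Rw.getVert i) f
      (fun i hi => hRadj _ _ (pg_adjG hD hi) (pg_notU hD (by omega)) (pg_notU hD (by omega)))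
      (fun i hi => Xw.adj_getVert_succ hi) (fun i hi => Rw.adj_getVert_succ hi)
      (by
        show Xw.getVert 0 = Sum.inl (pg D p q π _)
        rw [SimpleGraph.Walk.getVert_zero, pg_foot])
      (by
        show Xw.getVert Xw.length = Rw.getVert j0
        rw [SimpleGraph.Walk.getVert_length, hj0])
      (by omega) hj0l fle (by omega) fs
    have hMle : n + Xw.length + Rw.length ≤ M := by omega
    have hidxle : ∀ z ∈ B, tt z = 0 → idx z ≤ n ∧ pg D p q π (idx z) = z := fun z hz h =>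
      hidx z ((c4 z hz).1 h)
    refine ⟨fun z k => tr (idx z) k, ?_, ?_, ?_, ?_, ?_, ?_, ?_⟩
    · intro z hz h0 i _ b hb h
      obtain ⟨h1, -⟩ := hidxle z hz h0
      obtain ⟨-, -, -, -, h2⟩ := htr (idx z) h1
      have h' : tr (idx z) i = Sum.inl b := h
      rcases h2 i with ⟨j, hj, h3⟩ | ⟨j, hj, h3⟩ | ⟨j, hj, h3⟩
      · rw [h'] at h3
        exact pg_notU hD hj ((Sum.inl.inj h3) ▸ hb)
      · rw [h'] at h3
        exact Pool.Agent.Helper66.PL.ringOut_walk_ne Xw
          (fun c hc h => hD.x_U p ((Sum.inl.inj h) ▸ hc)) j b hb h3.symm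
      · rw [h'] at h3
        exact Pool.Agent.Helper66.PL.ringOut_walk_ne Rw (fun c _ h => by cases h) j b hb h3.symm
    · intro z hz h0
      obtain ⟨h1, h2⟩ := hidxle z hz h0
      show tr (idx z) 0 = Sum.inl z
      rw [(htr (idx z) h1).1, h2]
    · intro z hz h0 i _
      obtain ⟨h1, -⟩ := hidxle z hz h0
      exact ((htr (idx z) h1).2.1 i).mono (by omega)
    · intro z hz z' hz' hzz h0 h0' i _
      obtain ⟨h1, h2⟩ := hidxle z hz h0
      obtain ⟨h1', h2'⟩ := hidxle z' hz' h0'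
      have hne : idx z ≠ idx z' := by
        intro h3
        apply hzz.ne
        rw [← h2, ← h2', h3]
      rcases lt_or_gt_of_ne hne with h3 | h3
      · have h4 := c7 (idx z) (idx z') h3 (by rw [Γ1]; exact h1')
          (by rw [Γ2 _ h1, Γ2 _ h1', h2, h2']; exact hzz)
        have h5 := (htr (idx z) h1).2.2.2.1 (by omega) i
        show Nr RG _ (tr (idx z) i) (tr (idx z') i)
        rw [h4]
        exact h5.mono (by omega)
      · have h4 := c7 (idx z') (idx z) h3 (by rw [Γ1]; exact h1)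
          (by rw [Γ2 _ h1, Γ2 _ h1', h2, h2']; exact hzz.symm)
        have h5 := (htr (idx z') h1').2.2.2.1 (by omega) i
        show Nr RG _ (tr (idx z) i) (tr (idx z') i)
        rw [h4]
        exact h5.symm.mono (by omega)
    · intro h
      exact absurd haU h
    · -- the end of the track of `u`
      intro _
      have hiu : idx u = 0 := by
        rw [← hpg0]
        exact hidx_eq 0 (Nat.zero_le _)
      refine ⟨da, hda, ?_⟩
      have h2 : tr (idx u) M = Sum.inr da := by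
        rw [hiu, (htr 0 (Nat.zero_le _)).2.2.1 M hMle, f0]
        exact SimpleGraph.Walk.getVert_zero _
      show Nr RG _ (tr (idx u) M) _
      rw [h2]
      exact Nr.refl _ _ _
    · -- the other end
      intro z hz b hb hzb hne
      rcases hiso z hz b hb hzb with ⟨h1, h2⟩ | ⟨h1, h2⟩
      · exact absurd (by rw [h1, h2]) hne
      · have hiz : idx z = n := by
          rw [h2, ← hpgn]
          exact hidx_eq n le_rfl
        refine ⟨db, by rw [hdb, h1], ?_⟩
        have h4 : tr (idx z) M = Sum.inr db := by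
          rw [hiz, (htr n le_rfl).2.2.1 M hMle, fn]
          exact SimpleGraph.Walk.getVert_length _
        show Nr RG _ (tr (idx z) M) _
        rw [h4]
        exact Nr.refl _ _ _

end Pool.Agent.Helper95.PH
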