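import Pool.Agent.Helper93.HH.Basic

/-!
# PH/Tr: a path moves onto another path in three phases (MP_0dbcb7_co, theorem (PH))

The points of the path `g 0, .., g n` contract to `g i0 = p 0`, all of them move along `p 0, .., p m = g' j0`, and they
expand to `g' (f i)` along `g' 0, .., g' n'`. If neighbours have images at distance at most `c`, then they are at distance at
most `max 1 c` at every time.
-/

set_option autoImplicit false

open Set
open Pool.Agent.Helper93.HH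

namespace Pool.Agent.Helper95.PH

/-- move from `x` towards `y` by at most `s` steps -/
def tw (x y s : ℕ) : ℕ := if x ≤ y then min (x + s) y else max (x - s) y

theorem tw_zero (x y : ℕ) : tw x y 0 = x := by
  unfold tw
  split_ifs <;> omega

theorem tw_end {x y s : ℕ} (h1 : x ≤ y + s) (h2 : y ≤ x + s) : tw x y s = y := by
  unfold tw
  split_ifs <;> omega

theorem tw_le {x y s n : ℕ} (hx : x ≤ n) (hy : y ≤ n) : tw x y s ≤ n := by
  unfold tw
  split_ifs <;> omega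

theorem tw_step (x y s : ℕ) : tw x y s ≤ tw x y (s + 1) + 1 ∧ tw x y (s + 1) ≤ tw x y s + 1 := by
  unfold tw
  split_ifs <;> omega

theorem tw_end_nb (x y y' s c : ℕ) (h1 : y ≤ y' + c) (h2 : y' ≤ y + c) :
    tw x y s ≤ tw x y' s + c ∧ tw x y' s ≤ tw x y s + c := by
  unfold tw
  split_ifs <;> omega

theorem tw_start_nb (x x' y s c : ℕ) (h1 : x ≤ x' + c) (h2 : x' ≤ x + c) :
    tw x y s ≤ tw x' y s + c ∧ tw x' y s ≤ tw x y s + c := by
  unfold tw
  split_ifs <;> omega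

/-- two vertices of a path -/
theorem ch {W : Type} {R : SimpleGraph W} {G : ℕ → W} {e : ℕ}
    (h : ∀ x < e, R.Adj (G x) (G (x + 1))) (x : ℕ) : ∀ t, x + t ≤ e → Nr R t (G x) (G (x + t)) := by
  intro t
  induction t with
  | zero => intro _; exact Nr.refl R 0 _
  | succ t ih =>
    intro ht
    exact (ih (by omega)).trans (Nr.of_adj (h (x + t) (by omega)))

theorem ch' {W : Type} {R : SimpleGraph W} {G : ℕ → W} {e c x y : ℕ}
    (h : ∀ x < e, R.Adj (G x) (G (x + 1))) (hx : x ≤ e) (hy : y ≤ e) (h1 : x ≤ y + c)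
    (h2 : y ≤ x + c) : Nr R c (G x) (G y) := by
  rcases le_total x y with h3 | h3
  · have h4 := ch h x (y - x) (by omega)
    have e1 : x + (y - x) = y := by omega
    rw [e1] at h4
    exact h4.mono (by omega)
  · have h4 := ch h y (x - y) (by omega)
    have e1 : y + (x - y) = x := by omega
    rw [e1] at h4
    exact h4.symm.mono (by omega)

/-- the three phases -/
def trk3 {W : Type} (g p g' : ℕ → W) (f : ℕ → ℕ) (n m i0 j0 i k : ℕ) : W :=
  if k ≤ n then g (tw i i0 k) else if k ≤ n + m then p (k - n) else g' (tw j0 (f i) (k - n - m))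

theorem trk3_a {W : Type} {g p g' : ℕ → W} {f : ℕ → ℕ} {n m i0 j0 i k : ℕ} (h : k ≤ n) :
    trk3 g p g' f n m i0 j0 i k = g (tw i i0 k) := if_pos h

theorem trk3_b {W : Type} {g p g' : ℕ → W} {f : ℕ → ℕ} {n m i0 j0 i k : ℕ} (hi : i ≤ n)
    (hi0 : i0 ≤ n) (h0 : p 0 = g i0) (h : n ≤ k) (h' : k ≤ n + m) :
    trk3 g p g' f n m i0 j0 i k = p (k - n) := by
  unfold trk3
  split_ifs with h1
  · have h2 : k = n := le_antisymm h1 h
    rw [h2, Nat.sub_self, h0, tw_end (by omega) (by omega)]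
  · rfl

theorem trk3_c {W : Type} {g p g' : ℕ → W} {f : ℕ → ℕ} {n m i0 j0 i k : ℕ} (hi : i ≤ n)
    (hi0 : i0 ≤ n) (h0 : p 0 = g i0) (h1 : p m = g' j0) (h : n + m ≤ k) :
    trk3 g p g' f n m i0 j0 i k = g' (tw j0 (f i) (k - n - m)) := by
  by_cases h2 : k = n + m
  · rw [trk3_b hi hi0 h0 (by omega) (by omega)]
    have e1 : k - n = m := by omega
    have e2 : k - n - m = 0 := by omega
    rw [e2, tw_zero, e1, h1]
  · unfold trk3
    rw [if_neg (by omega), if_neg (by omega)]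

/-- **The tracks.** -/
theorem tracks3 {W : Type} (R : SimpleGraph W) (n n' m c i0 j0 : ℕ) (g p g' : ℕ → W) (f : ℕ → ℕ)
    (hg : ∀ i < n, R.Adj (g i) (g (i + 1))) (hp : ∀ k < m, R.Adj (p k) (p (k + 1)))
    (hg' : ∀ i < n', R.Adj (g' i) (g' (i + 1))) (h0 : p 0 = g i0) (h1 : p m = g' j0)
    (hi0 : i0 ≤ n) (hj0 : j0 ≤ n') (hf : ∀ i ≤ n, f i ≤ n') (hc1 : 1 ≤ c)
    (hc : ∀ i < n, f (i + 1) ≤ f i + c ∧ f i ≤ f (i + 1) + c) :
    ∃ trk : ℕ → ℕ → W, ∀ i ≤ n, trk i 0 = g i ∧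
      (∀ k, Nr R 1 (trk i k) (trk i (k + 1))) ∧
      (∀ k, n + m + n' ≤ k → trk i k = g' (f i)) ∧
      (i < n → ∀ k, Nr R c (trk i k) (trk (i + 1) k)) ∧
      ∀ k, (∃ j ≤ n, trk i k = g j) ∨ (∃ j ≤ m, trk i k = p j) ∨ ∃ j ≤ n', trk i k = g' j := by
  refine ⟨trk3 g p g' f n m i0 j0, ?_⟩
  intro i hi
  have hfi := hf i hi
  refine ⟨?_, ?_, ?_, ?_, ?_⟩
  · rw [trk3_a (Nat.zero_le _), tw_zero]
  · intro k
    rcases Nat.lt_or_ge k n with h2 | h2
    · rw [trk3_a h2.le, trk3_a (by omega)]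
      have h3 := tw_step i i0 k
      exact ch' hg (tw_le hi hi0) (tw_le hi hi0) h3.1 h3.2
    rcases Nat.lt_or_ge k (n + m) with h3 | h3
    · rw [trk3_b hi hi0 h0 h2 h3.le, trk3_b hi hi0 h0 (by omega) (by omega)]
      exact ch' hp (by omega) (by omega) (by omega) (by omega)
    · rw [trk3_c hi hi0 h0 h1 h3, trk3_c hi hi0 h0 h1 (by omega)]
      have e1 : k + 1 - n - m = k - n - m + 1 := by omega
      rw [e1]
      have h4 := tw_step j0 (f i) (k - n - m)
      exact ch' hg' (tw_le hj0 hfi) (tw_le hj0 hfi) h4.1 h4.2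
  · intro k hk
    rw [trk3_c hi hi0 h0 h1 (by omega), tw_end (by omega) (by omega)]
  · intro hin k
    have hfi' := hf (i + 1) hin
    rcases Nat.lt_or_ge k n with h2 | h2
    · rw [trk3_a h2.le, trk3_a h2.le]
      have h3 := tw_start_nb i (i + 1) i0 k c (by omega) (by omega)
      exact ch' hg (tw_le hi hi0) (tw_le hin hi0) h3.1 h3.2
    rcases Nat.lt_or_ge k (n + m) with h3 | h3
    · rw [trk3_b hi hi0 h0 h2 h3.le, trk3_b hin hi0 h0 h2 h3.le]
      exact Nr.refl _ _ _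
    · rw [trk3_c hi hi0 h0 h1 h3, trk3_c hin hi0 h0 h1 h3]
      have h4 := tw_end_nb j0 (f i) (f (i + 1)) (k - n - m) c (hc i hin).2 (hc i hin).1
      exact ch' hg' (tw_le hj0 hfi) (tw_le hj0 hfi') h4.1 h4.2
  · intro k
    rcases Nat.lt_or_ge k n with h2 | h2
    · exact Or.inl ⟨tw i i0 k, tw_le hi hi0, trk3_a h2.le⟩
    rcases Nat.lt_or_ge k (n + m) with h3 | h3
    · exact Or.inr (Or.inl ⟨k - n, by omega, trk3_b hi hi0 h0 h2 h3.le⟩)
    · exact Or.inr (Or.inr ⟨_, tw_le hj0 hfi, trk3_c hi hi0 h0 h1 h3⟩)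

/-- an affine map with bounded slope -/
theorem aff (n N c : ℕ) (hn : 1 ≤ n) (hN : N ≤ c * n) : ∃ f : ℕ → ℕ, f 0 = 0 ∧ f n = N ∧
    (∀ i ≤ n, f i ≤ N) ∧ ∀ i < n, f (i + 1) ≤ f i + (c + 1) ∧ f i ≤ f (i + 1) + (c + 1) := by
  refine ⟨fun i => i * N / n, by simp, ?_, ?_, ?_⟩
  · show n * N / n = N
    rw [Nat.mul_div_cancel_left _ (by omega)]
  · intro i hi
    exact Nat.div_le_of_le_mul (Nat.mul_le_mul_right _ hi)
  · intro i _
    have h1 : i * N / n ≤ (i + 1) * N / n := Nat.div_le_div_right (Nat.mul_le_mul_right _ (by omega))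
    have h2 : (i + 1) * N / n ≤ i * N / n + (c + 1) := by
      have h3 : (i + 1) * N ≤ i * N + c * n := by
        rw [add_mul, one_mul]
        omega
      have h4 : (i * N + c * n) / n = i * N / n + c := Nat.add_mul_div_right _ _ (by omega)
      have h5 := Nat.div_le_div_right (c := n) h3
      omega
    show (i + 1) * N / n ≤ i * N / n + (c + 1) ∧ i * N / n ≤ (i + 1) * N / n + (c + 1)
    omega

end Pool.Agent.Helper95.PH
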